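import Pool.Agent.N662.FP.Stm3

set_option autoImplicit false
open MeasureTheory ProbabilityTheory Filter Set
open scoped ENNReal Pointwise Topology

namespace Pool.Agent.N478.FN

open Pool.Agent.N662.FP

lemma em_zero {v : ℤ × ℤ} (h : em v = 0) : v = 0 := by
  have h1 := congrArg Prod.fst h
  have h2 := congrArg Prod.snd h
  simp only [Pool.Agent.N662.FP.em, Prod.fst_zero, Prod.snd_zero, Int.cast_eq_zero] at h1 h2
  exact Prod.ext h1 h2

lemma em_smul (k : ℕ) (v : ℤ × ℤ) : em ((k : ℤ) • v) = (k : ℝ) • em v := by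
  ext <;> simp [Pool.Agent.N662.FP.em]

lemma em_succ (k : ℕ) (v : ℤ × ℤ) : em (v + (k : ℤ) • v) = ((k : ℝ) + 1) • em v := by
  ext <;> simp [Pool.Agent.N662.FP.em] <;> ring

lemma mu_smul (μ : Seminorm ℝ (ℝ × ℝ)) (k : ℕ) (v : ℤ × ℤ) :
    μ (em ((k : ℤ) • v)) = k * μ (em v) := by
  rw [em_smul, map_smul_eq_mul]
  simp

lemma mu_succ (μ : Seminorm ℝ (ℝ × ℝ)) (k : ℕ) (v : ℤ × ℤ) :
    μ (em (v + (k : ℤ) • v)) = (k + 1) * μ (em v) := by
  rw [em_succ, map_smul_eq_mul, Real.norm_eq_abs, abs_of_nonneg (by positivity)]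

lemma D_nonneg {x : Sym2 (ℤ × ℤ) → ℝ} (hx : ∀ e, 0 ≤ x e) (a v : ℤ × ℤ) : 0 ≤ D x a v := by
  apply Real.sInf_nonneg
  rintro s ⟨n, p, _, _, _, rfl⟩
  exact Finset.sum_nonneg fun i _ => hx _

lemma mem_out {Ω : Type} (T : Ω → ℤ × ℤ → ℝ) (μ : Seminorm ℝ (ℝ × ℝ)) (κ t : ℝ) (ht : 0 < t)
    (ω : Ω) (v : ℤ × ℤ) (h1 : T ω v ≤ t) (h2 : (1 + t ^ (-κ)) * t < μ (em v)) :
    ω ∈ Out T μ κ t := by
  rw [Out, mem_ofPred_eq]
  intro h
  have h3 : em v ∈ Fat (T ω) t := ⟨v, h1, by simp [Pool.Agent.N662.FP.em], by simp [Pool.Agent.N662.FP.em]⟩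
  obtain ⟨y, hy, hy2⟩ := h h3
  have hc : 0 < (1 + t ^ (-κ)) * t := by positivity
  have h4 : μ (em v) ≤ (1 + t ^ (-κ)) * t := by
    rw [← hy2]
    simp only [map_smul_eq_mul, Real.norm_eq_abs, abs_of_pos hc]
    exact mul_le_of_le_one_right hc.le hy
  linarith

/-- the bound for large `t` -/
lemma big (h2 : S_TRI) (h3 : S_AE) (h4 : S_TIL) {Ω : Type} [MeasureSpace Ω]
    [IsProbabilityMeasure (volume : Measure Ω)] {X : Sym2 (ℤ × ℤ) → Ω → ℝ} (hX : Iid X)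
    {μ : Seminorm ℝ (ℝ × ℝ)} (hμ : ∀ x, μ x = 0 → x = 0) {κ κ2 A q : ℝ} (hκ : 0 < κ) (hκκ : κ < κ2)
    (hκ2 : κ2 < 1) (hA : 0 < A) (hq : 0 < q)
    (hU : ∀ (v : ℤ × ℤ) (u : ℝ), 0 ≤ u →
      (volume : Measure Ω).real {ω | μ (em v) + A * (1 + μ (em v)) ^ (1 - κ2) + u ≤ D (env X ω) 0 v}
        ≤ Real.exp (-(u / (5 * (A * (1 + μ (em v)) ^ (1 - κ2))))))
    {C : ℝ} (hC : 0 ≤ C) {t : ℝ} (ht : 1 ≤ t) (h9 : 9 ≤ t ^ (κ2 - κ)) (h16 : 16 * A ≤ t ^ (κ2 - κ))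
    (hexp : Real.exp (-(t ^ (κ2 - κ) / (80 * A))) ≤ t ^ (-q))
    (hO : ∀ s, t ≤ s →
      (volume : Measure Ω).real (Out (fun ω v => D (env X ω) 0 v) μ κ2 s) ≤ C * s ^ (-q))
    (v : ℤ × ℤ) (hv : μ (em v) ≤ t) :
    (volume : Measure Ω).real {ω | D (env X ω) 0 v ≤ μ (em v) - t ^ (1 - κ)} ≤ (C + 1) * t ^ (-q) := by
  have ht0 : 0 < t := by linarith
  have htq : 0 < t ^ (-q) := Real.rpow_pos_of_pos ht0 _
  have htk : 0 < t ^ (1 - κ) := Real.rpow_pos_of_pos ht0 _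
  have hae := h3 Ω X hX
  by_cases hv0 : v = 0
  · subst hv0
    have h0 : μ (em 0) = 0 := by
      have : em (0 : ℤ × ℤ) = 0 := by ext <;> simp [Pool.Agent.N662.FP.em]
      rw [this, map_zero]
    have h5 : (volume : Measure Ω) {ω | D (env X ω) 0 0 ≤ μ (em 0) - t ^ (1 - κ)} = 0 := by
      have h6 : ∀ᵐ ω ∂(volume : Measure Ω), ¬ (D (env X ω) 0 0 ≤ μ (em 0) - t ^ (1 - κ)) := by
        filter_upwards [hae] with ω hω
        have h7 := D_nonneg hω 0 0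
        rw [h0]
        linarith
      simpa only [not_not] using ae_iff.1 h6
    rw [measureReal_def, h5, ENNReal.toReal_zero]
    positivity
  have hm : 0 < μ (em v) := by
    rcases (apply_nonneg μ (em v)).lt_or_eq with h | h
    · exact h
    · exact absurd (em_zero (hμ _ h.symm)) hv0
  set m : ℝ := μ (em v) with hmd
  -- the multiple
  obtain ⟨j, hj1, hj2⟩ : ∃ j : ℕ, 2 * t ≤ (j + 1) * m ∧ (j + 1) * m ≤ 3 * t := by
    have h5 : (2 : ℝ) ≤ 2 * t / m := by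
      rw [le_div_iff₀ hm]
      linarith
    have h6 : 0 < ⌈2 * t / m⌉₊ := Nat.ceil_pos.2 (by linarith)
    obtain ⟨j, hj⟩ : ∃ j, ⌈2 * t / m⌉₊ = j + 1 := ⟨⌈2 * t / m⌉₊ - 1, by omega⟩
    have h7 := Nat.le_ceil (2 * t / m)
    have h8 := Nat.ceil_lt_add_one (show (0 : ℝ) ≤ 2 * t / m by linarith)
    rw [hj] at h7 h8
    push_cast at h7 h8
    refine ⟨j, ?_, ?_⟩
    · rwa [div_le_iff₀ hm] at h7
    · have h10 : ((j : ℝ) + 1) * m < (2 * t / m + 1) * m := mul_lt_mul_of_pos_right h8 hm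
      have h11 : (2 * t / m + 1) * m = 2 * t + m := by
        field_simp
      linarith
  -- powers
  set Q : ℝ := t ^ (1 - κ2) with hQ
  set s : ℝ := t ^ (κ2 - κ) with hs
  have hQ0 : 0 < Q := Real.rpow_pos_of_pos ht0 _
  have hQs : t ^ (1 - κ) = Q * s := by
    rw [hQ, hs, ← Real.rpow_add ht0]
    congr 1
    ring
  have hle : t ^ (1 - κ) ≤ t := by
    have := Real.rpow_le_rpow_of_exponent_le ht (show 1 - κ ≤ 1 by linarith)
    rwa [Real.rpow_one] at this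
  have h4Q : ∀ r : ℝ, 0 ≤ r → r ≤ 4 * t → r ^ (1 - κ2) ≤ 4 * Q := by
    intro r hr hr4
    have h5 : r ^ (1 - κ2) ≤ (4 * t) ^ (1 - κ2) := Real.rpow_le_rpow hr hr4 (by linarith)
    rw [Real.mul_rpow (by norm_num) ht0.le] at h5
    have h6 : (4 : ℝ) ^ (1 - κ2) ≤ 4 := by
      have := Real.rpow_le_rpow_of_exponent_le (show (1 : ℝ) ≤ 4 by norm_num)
        (show 1 - κ2 ≤ 1 by linarith)
      rwa [Real.rpow_one] at this
    exact h5.trans (mul_le_mul_of_nonneg_right h6 hQ0.le)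
  set t' : ℝ := (j + 1) * m - t ^ (1 - κ) / 2 with ht'
  have ht1 : t ≤ t' := by
    rw [ht']
    linarith
  have ht3 : t' ≤ 4 * t := by
    rw [ht']
    linarith
  have ht'0 : 0 < t' := by linarith
  -- the second event
  have hE2 : (volume : Measure Ω).real {ω | j * m + t ^ (1 - κ) / 2 ≤
      D (env X ω) v (v + (j : ℤ) • v)} ≤ t ^ (-q) := by
    rw [h4 Ω X hX v ((j : ℤ) • v) (j * m + t ^ (1 - κ) / 2)]
    set B : ℝ := A * (1 + μ (em ((j : ℤ) • v))) ^ (1 - κ2) with hB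
    have hjm : μ (em ((j : ℤ) • v)) = j * m := mu_smul μ j v
    have hjm0 : 0 ≤ (j : ℝ) * m := by positivity
    have hB0 : 0 < B := by
      rw [hB, hjm]
      exact mul_pos hA (Real.rpow_pos_of_pos (by linarith) _)
    have hB1 : B ≤ 4 * A * Q := by
      have h5 := h4Q (1 + j * m) (by linarith) (by linarith)
      rw [hB, hjm]
      calc A * (1 + j * m) ^ (1 - κ2) ≤ A * (4 * Q) := mul_le_mul_of_nonneg_left h5 hA.le
        _ = 4 * A * Q := by ring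
    have hB2 : 4 * A * Q ≤ Q * s / 4 := by nlinarith
    have hu : 0 ≤ t ^ (1 - κ) / 2 - B := by
      rw [hQs]
      nlinarith [mul_pos hQ0 (show 0 < s by linarith)]
    have h5 := hU ((j : ℤ) • v) (t ^ (1 - κ) / 2 - B) hu
    have h6 : μ (em ((j : ℤ) • v)) + B + (t ^ (1 - κ) / 2 - B) = j * m + t ^ (1 - κ) / 2 := by
      rw [hjm]
      ring
    rw [← hB, h6] at h5
    refine h5.trans ((Real.exp_le_exp.2 (neg_le_neg ?_)).trans hexp)
    rw [hQs, div_le_div_iff₀ (by positivity) (by positivity)]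
    have hs0 : 0 < s := by linarith
    have h7 : Q * s / 4 ≤ Q * s / 2 - B := by linarith
    calc s * (5 * B) ≤ s * (5 * (4 * A * Q)) := by gcongr
      _ = (Q * s / 4) * (80 * A) := by ring
      _ ≤ (Q * s / 2 - B) * (80 * A) := by gcongr
  -- the outer event
  have hE1 : (volume : Measure Ω).real (Out (fun ω v => D (env X ω) 0 v) μ κ2 t') ≤ C * t ^ (-q) := by
    refine (hO t' ht1).trans (mul_le_mul_of_nonneg_left ?_ hC)
    exact Real.rpow_le_rpow_of_nonpos ht0 ht1 (by linarith)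
  have hsub : {ω | D (env X ω) 0 v ≤ m - t ^ (1 - κ)} ≤ᵐ[(volume : Measure Ω)]
      (Out (fun ω v => D (env X ω) 0 v) μ κ2 t' ∪
        {ω | j * m + t ^ (1 - κ) / 2 ≤ D (env X ω) v (v + (j : ℤ) • v)} : Set Ω) := by
    filter_upwards [hae] with ω hω hωE
    have hωE' : D (env X ω) 0 v ≤ m - t ^ (1 - κ) := hωE
    by_cases h5 : j * m + t ^ (1 - κ) / 2 ≤ D (env X ω) v (v + (j : ℤ) • v)
    · exact Or.inr h5
    · left
      push_neg at h5
      have h6 := h2 (env X ω) hω 0 v (v + (j : ℤ) • v)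
      apply mem_out _ μ κ2 t' ht'0 ω (v + (j : ℤ) • v)
      · show D (env X ω) 0 (v + (j : ℤ) • v) ≤ t'
        rw [ht']
        linarith
      · rw [mu_succ, ← hmd]
        have h7 : (1 + t' ^ (-κ2)) * t' = t' + t' ^ (1 - κ2) := by
          have h8 : t' ^ (1 - κ2) = t' ^ (-κ2) * t' := by
            rw [show 1 - κ2 = -κ2 + 1 by ring, Real.rpow_add ht'0, Real.rpow_one]
          rw [h8]
          ring
        rw [h7]
        have h8 := h4Q t' ht'0.le ht3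
        have h10 : 4 * Q < t ^ (1 - κ) / 2 := by
          rw [hQs]
          nlinarith
        have h11 : t' = (j + 1) * m - t ^ (1 - κ) / 2 := ht'
        linarith
  calc (volume : Measure Ω).real {ω | D (env X ω) 0 v ≤ m - t ^ (1 - κ)}
      ≤ (volume : Measure Ω).real (Out (fun ω v => D (env X ω) 0 v) μ κ2 t' ∪
        {ω | j * m + t ^ (1 - κ) / 2 ≤ D (env X ω) v (v + (j : ℤ) • v)}) :=
        ENNReal.toReal_mono (measure_ne_top _ _) (measure_mono_ae hsub)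
    _ ≤ _ + _ := measureReal_union_le _ _
    _ ≤ C * t ^ (-q) + t ^ (-q) := add_le_add hE1 hE2
    _ = (C + 1) * t ^ (-q) := by ring

theorem t_OUT2 (_h1 : S_TIL2) (h2 : S_TRI) (h3 : S_AE) (h4 : S_TIL) : S_OUT2 := by
  intro Ω _ _ X hX μ hμ κ κ2 A q hκ hκκ hκ2 hA hq hU hO
  have hδ : 0 < κ2 - κ := by linarith
  obtain ⟨C0, hC0⟩ := hO.bound
  have e1 : ∀ᶠ t : ℝ in atTop, 9 ≤ t ^ (κ2 - κ) := (tendsto_rpow_atTop hδ).eventually_ge_atTop 9
  have e2 : ∀ᶠ t : ℝ in atTop, 16 * A ≤ t ^ (κ2 - κ) :=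
    (tendsto_rpow_atTop hδ).eventually_ge_atTop (16 * A)
  have e3 : ∀ᶠ t : ℝ in atTop, Real.exp (-(t ^ (κ2 - κ) / (80 * A))) ≤ t ^ (-q) := by
    have h5 := (isLittleO_exp_neg_mul_rpow_atTop (show 0 < (80 * A)⁻¹ by positivity)
      (-q / (κ2 - κ))).comp_tendsto (tendsto_rpow_atTop hδ)
    have h6 := h5.bound (show (0 : ℝ) < 1 by norm_num)
    filter_upwards [h6, eventually_gt_atTop 0] with t h7 ht
    simp only [Function.comp_apply, one_mul, Real.norm_eq_abs, Real.abs_exp] at h7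
    rw [abs_of_nonneg (Real.rpow_nonneg (Real.rpow_nonneg ht.le _) _), ← Real.rpow_mul ht.le,
      mul_div_cancel₀ _ hδ.ne'] at h7
    convert h7 using 2
    field_simp
  obtain ⟨t0, ht0⟩ := eventually_atTop.1 ((hC0.and e1).and (e2.and e3))
  set t1 : ℝ := max t0 1 with ht1
  have ht11 : 1 ≤ t1 := le_max_right _ _
  have ht10 : 0 < t1 := by linarith
  set C : ℝ := max C0 0 with hCd
  have hC : 0 ≤ C := le_max_right _ _
  refine ⟨(C + 1) + t1 ^ q, ?_⟩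
  intro t ht v hv
  have htp : 0 < t := by linarith
  have htq : 0 < t ^ (-q) := Real.rpow_pos_of_pos htp _
  have ht1q : 0 < t1 ^ q := Real.rpow_pos_of_pos ht10 _
  rcases le_total t1 t with h | h
  · have h5 := ht0 t ((le_max_left _ _).trans h)
    have h6 := big h2 h3 h4 hX hμ hκ hκκ hκ2 hA hq hU hC ht h5.1.2 h5.2.1 h5.2.2 (fun s hs => by
      have h7 := (ht0 s ((le_max_left _ _).trans (h.trans hs))).1.1
      rw [Real.norm_eq_abs, abs_of_nonneg measureReal_nonneg, Real.norm_eq_abs,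
        abs_of_nonneg (Real.rpow_nonneg (by linarith) _)] at h7
      exact h7.trans (mul_le_mul_of_nonneg_right (le_max_left _ _)
        (Real.rpow_nonneg (by linarith) _))) v hv
    refine h6.trans (mul_le_mul_of_nonneg_right ?_ htq.le)
    linarith
  · have h5 : (volume : Measure Ω).real {ω | D (env X ω) 0 v ≤ μ (em v) - t ^ (1 - κ)} ≤ 1 :=
      measureReal_le_one
    have h6 : 1 ≤ t1 ^ q * t ^ (-q) := by
      rw [Real.rpow_neg htp.le, ← div_eq_mul_inv, one_le_div (Real.rpow_pos_of_pos htp _)]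
      exact Real.rpow_le_rpow htp.le h hq.le
    have h7 : 0 ≤ (C + 1) * t ^ (-q) := by positivity
    calc _ ≤ (1 : ℝ) := h5
      _ ≤ t1 ^ q * t ^ (-q) := h6
      _ ≤ (C + 1) * t ^ (-q) + t1 ^ q * t ^ (-q) := by linarith
      _ = ((C + 1) + t1 ^ q) * t ^ (-q) := by ring

end Pool.Agent.N478.FN
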